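import Mathlib
import Pool.Agent.K9h5.Loc
import Pool.Agent.K9h5.Q.Ram

/-!
# The local theorem for cyclic covers with arbitrary parameters
-/

set_option autoImplicit false
set_option linter.all false

namespace Pool.Agent.K9h5.C

open Polynomial Pool.Agent.H901R3.MS WeierstrassCurve Finset Pool.Agent.K9h5
  Pool.Agent.K9h5.Q

/-- **The local theorem.** -/
theorem local_C {r : ℕ} (l : ℕ) (hl : l.Prime) (a b : ℤ) (hD : Disc (a : ℚ) (b : ℚ))
    (F : MvPolynomial (Fin r × Fin 3) ℤ) (j : Fin r) {d : ℕ}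
    (hF : F.IsWeightedHomogeneous (wtj j) d) (hld : l ∣ d)
    (V : Fin r → Fin 3 → ℂ) (W : Fin 3 → PowerSeries ℂ) (m : ℕ)
    (hW0 : W ≠ 0) (hWE : W 1 ^ 2 * W 2 = W 0 ^ 3 + (a : PowerSeries ℂ) * W 0 * W 2 ^ 2 +
      (b : PowerSeries ℂ) * W 2 ^ 3)
    (hord : (evF F (fun i k => if i = j then W k else PowerSeries.C (V i k))).order = m)
    (hm : ¬ l ∣ m) :
    ∃ (bp : MvPolynomial (Fin r × Fin 3) ℤ) (V₀ : Fin r → Fin 3 → ℂ) (C : ℝ) (p₀ : ℕ), 0 ≤ C ∧
      evF bp V₀ ≠ 0 ∧ (V₀ j 2 = 1 ∧ V₀ j 1 ^ 2 = V₀ j 0 ^ 3 + a * V₀ j 0 + b) ∧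
      (∀ i, i ≠ j → V₀ i = V i) ∧ ∀ (p : ℕ) [Fact p.Prime],
      p₀ ≤ p → Disc (a : ZMod p) (b : ZMod p) ∧ p ≠ 2 ∧
      (l ∣ p - 1 → ∀ U : Fin r → Fin 3 → ZMod p,
        (∃ c : Pt (a : ZMod p) (b : ZMod p), evF bp (Function.update U j (rep c)) ≠ 0) →
        ∃ Bd : Finset (Pt (a : ZMod p) (b : ZMod p)), 3 / 2 * (Bd.card : ℝ) ≤ C ∧
          ∀ h h', h ∉ Bd → h' ∉ Bd → h + h' ∉ Bd → h - h' ∉ Bd →
            |∑ u : Pt (a : ZMod p) (b : ZMod p), gw l (specF F j U) u *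
              gw l (specF F j U) (u + h) *
              gw l (specF F j U) (u + h') *
              gw l (specF F j U) (u + (h + h'))| ≤ C * √p) := by
  classical
  have hDC : Disc (a : ℂ) (b : ℂ) := by
    have h1 := disc_map (Rat.castHom ℂ) hD
    simpa using h1
  obtain ⟨V₀, x₀, haff₀, hVV, hN0, hmm⟩ := ram_ptQ a b F l j hDC hF hld V W m hW0 hWE
    hord hm
  obtain ⟨bp', hbp'0, hbp'⟩ := bpoly F j a b l hl.pos V₀ x₀ hN0 hmm
  set bp : MvPolynomial (Fin r × Fin 3) ℤ := bp' * MvPolynomial.X (j, 2) with hbp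
  have hev : ∀ (S : Type) [CommRing S] (V : Fin r → Fin 3 → S),
      evF bp V = evF bp' V * V j 2 := by
    intro S _ V
    unfold evF
    rw [hbp, MvPolynomial.eval₂_mul, MvPolynomial.eval₂_X]
  have hbp0 : evF bp V₀ ≠ 0 := by
    rw [hev, haff₀.1, mul_one]
    exact hbp'0
  obtain ⟨D, hD'⟩ := degQ_spec F j a b
  obtain ⟨Cc, hCc, hc⟩ := corr_four l hl d hld D
  obtain ⟨q, hq⟩ := disc_mod hD
  refine ⟨bp, V₀, 3 / 2 * Cc, max 3 q, by positivity, hbp0, haff₀, hVV, ?_⟩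
  intro p _ hp
  have hp2 : 3 ≤ p := (le_max_left _ _).trans hp
  have hp3 : q ≤ p := (le_max_right _ _).trans hp
  refine ⟨hq p hp3, by omega, ?_⟩
  intro hlp U hG
  obtain ⟨c, hcne⟩ := hG
  rw [hev] at hcne
  have h1 := left_ne_zero_of_mul hcne
  have h2 := right_ne_zero_of_mul hcne
  set V : Fin r → Fin 3 → ZMod p := Function.update U j (rep c) with hV
  have hVj : V j = rep c := by
    rw [hV, Function.update_self]
  have hFm : specF F j U = specF F j V := by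
    apply specF_congr
    intro i hi
    rw [hV, Function.update_of_ne hi]
  rw [hVj] at h2
  cases hcc : c with
  | zero =>
    exfalso
    apply h2
    rw [hcc]
    simp [rep]
  | some x y h =>
    rw [hcc] at hVj
    have hx : V j 0 = x := by rw [hVj]; simp [rep]
    have hy : V j 1 = y := by rw [hVj]; simp [rep]
    have h3 := hbp' (ZMod p) (AlgebraicClosure (ZMod p))
      (algebraMap (ZMod p) (AlgebraicClosure (ZMod p))) V h1
    rw [hx, hy] at h3
    have h4 : (specF F j V).IsHomogeneous d := specF_homog F j hF _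
    obtain ⟨Bd, hBd, hB⟩ := hc p (by omega) hlp a b (hq p hp3)
      (specF F j V) h4 (fun x y => hD' (ZMod p) _ x y) x y h h3
    refine ⟨Bd, ?_, ?_⟩
    · exact mul_le_mul_of_nonneg_left hBd (by norm_num)
    · intro h h' e1 e2 e3 e4
      rw [hFm]
      refine (hB h h' e1 e2 e3).trans ?_
      apply mul_le_mul_of_nonneg_right _ (Real.sqrt_nonneg _)
      linarith

end Pool.Agent.K9h5.C
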