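import Mathlib
import Pool.Agent.K9h5.N.Rdk

/-!
# Primes of degree one which are `1` modulo `l`
-/

set_option autoImplicit false
set_option linter.all false

namespace Pool.Agent.K9h5.C

open Pool.Agent.H901R3.MS Pool.Agent.K9h5 NumberField Pool.Agent.K9h5.N

/-- primes of degree one of `K` which are `1` modulo `l` -/
def AdmL (K : Type) [Field K] [NumberField K] (l p : ℕ) : Prop := AdmK K p ∧ l ∣ p - 1

theorem killL (K : Type) [Field K] [NumberField K] [DecidableEq K] (l : ℕ) (a b : ℤ) :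
    Kill (hK (a := (a : K)) (b := (b : K))) (AdmL K l) (fun p _ => rdK K p a b) := by
  intro P hP0 S hS
  refine killK K a b P hP0 S ?_
  intro p hp
  obtain ⟨h1, h2, h3, h4⟩ := hS p hp
  exact ⟨h1, h2.1, h3, h4⟩

theorem adm_cyc (K : Type) [Field K] [NumberField K] (l : ℕ) (hl : l.Prime)
    (L : Type) [Field L] [NumberField L] [Algebra K L] (ζ : L) (hζ : IsPrimitiveRoot ζ l)
    (p : ℕ) (hp : p.Prime) (hpl : p ≠ l) (h : AdmK L p) : AdmL K l p := by
  haveI : Fact p.Prime := ⟨hp⟩
  haveI : Fact l.Prime := ⟨hl⟩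
  obtain ⟨f⟩ := h
  have hint : IsIntegral ℤ ζ := hζ.isIntegral hl.pos
  obtain ⟨z, hz⟩ : ∃ z : 𝓞 L, (z : L) = ζ := ⟨⟨ζ, hint⟩, rfl⟩
  have hz' : IsPrimitiveRoot z l := by
    apply IsPrimitiveRoot.of_map_of_injective (f := algebraMap (𝓞 L) L)
    · show IsPrimitiveRoot (z : L) l
      rw [hz]
      exact hζ
    · exact RingOfIntegers.coe_injective
  refine ⟨⟨f.comp (algebraMap (𝓞 K) (𝓞 L))⟩, ?_⟩
  have h1 : (f z) ^ l = 1 := by rw [← map_pow, hz'.pow_eq_one, map_one]
  have h2 : ∑ i ∈ Finset.range l, (f z) ^ i = 0 := by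
    have h3 := hz'.geom_sum_eq_zero hl.one_lt
    have h4 := congrArg f h3
    rw [map_sum, map_zero] at h4
    simpa using h4
  have h3 : f z ≠ 1 := by
    intro h4
    rw [h4] at h2
    simp only [one_pow, Finset.sum_const, Finset.card_range, nsmul_eq_mul, mul_one] at h2
    rw [ZMod.natCast_eq_zero_iff] at h2
    exact hpl ((Nat.prime_dvd_prime_iff_eq hp hl).1 h2)
  have h4 : orderOf (f z) = l := orderOf_eq_prime h1 h3
  have h5 : f z ≠ 0 := by
    intro h6
    rw [h6, zero_pow hl.ne_zero] at h1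
    exact zero_ne_one h1
  rw [← h4]
  exact ZMod.orderOf_dvd_card_sub_one h5

open Classical in
/-- the supply of primes -/
theorem supL (K : Type) [Field K] [NumberField K] (l : ℕ) (hl : l.Prime) :
    ∃ cP : ℝ, 0 < cP ∧ ∃ TP : ℕ, ∀ X : ℕ, TP ≤ X →
    cP * (X / Real.log X) ≤
      (((Finset.range (X + 1)).filter (fun p => p.Prime ∧ AdmL K l p)).card : ℝ) := by
  haveI : NeZero l := ⟨hl.ne_zero⟩
  haveI : NumberField (CyclotomicField l K) := IsCyclotomicExtension.numberField {l} K _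
  obtain ⟨c, hc, T, hT⟩ := supK (CyclotomicField l K)
  have hζ := IsCyclotomicExtension.zeta_spec l K (CyclotomicField l K)
  obtain ⟨N, hN⟩ : ∃ N : ℕ, ∀ X : ℕ, N ≤ X → 1 ≤ c / 2 * ((X : ℝ) / Real.log X) := by
    obtain ⟨M, hM⟩ := exists_nat_gt ((2 / c) ^ 2)
    refine ⟨max M 2, fun X hX => ?_⟩
    have hX1 : M ≤ X := (le_max_left _ _).trans hX
    have hX2 : 2 ≤ X := (le_max_right _ _).trans hX
    have hX1' : (M : ℝ) ≤ X := by exact_mod_cast hX1
    have hX2' : (2 : ℝ) ≤ X := by exact_mod_cast hX2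
    have hlog : 0 < Real.log X := Real.log_pos (by linarith)
    have h1 : Real.log X ≤ √X := by
      have h2 : Real.log (√X) ≤ √X / 2 := by
        have h3 := Real.add_one_le_exp (√X / 2)
        have h4 : √(X : ℝ) ≤ Real.exp (√X / 2) := by
          have h5 := Real.quadratic_le_exp_of_nonneg (x := √X / 2) (by positivity)
          have h6 : 0 ≤ √(X : ℝ) := Real.sqrt_nonneg _
          nlinarith [sq_nonneg (√(X : ℝ) - 2)]
        calc Real.log (√X) ≤ Real.log (Real.exp (√X / 2)) :=
              Real.log_le_log (Real.sqrt_pos.2 (by linarith)) h4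
          _ = √X / 2 := Real.log_exp _
      rw [Real.log_sqrt (by linarith)] at h2
      linarith
    have h2 : √(X : ℝ) ≤ X / Real.log X := by
      rw [le_div_iff₀ hlog]
      calc √(X : ℝ) * Real.log X ≤ √X * √X := mul_le_mul_of_nonneg_left h1 (Real.sqrt_nonneg _)
        _ = X := Real.mul_self_sqrt (by linarith)
    have h3 : 2 / c ≤ √(X : ℝ) := by
      apply Real.le_sqrt_of_sq_le
      linarith
    have h4 : c / 2 * (2 / c) ≤ c / 2 * ((X : ℝ) / Real.log X) :=
      mul_le_mul_of_nonneg_left (h3.trans h2) (by positivity)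
    have h5 : c / 2 * (2 / c) = 1 := by field_simp
    linarith
  refine ⟨c / 2, by positivity, max T N, fun X hX => ?_⟩
  have h1 := hT X ((le_max_left _ _).trans hX)
  have h2 := hN X ((le_max_right _ _).trans hX)
  have h3 : (Finset.range (X + 1)).filter (fun p => p.Prime ∧ AdmK (CyclotomicField l K) p) ⊆
      insert l ((Finset.range (X + 1)).filter (fun p => p.Prime ∧ AdmL K l p)) := by
    intro p hp
    rw [Finset.mem_filter] at hp
    rw [Finset.mem_insert, Finset.mem_filter]
    by_cases hpl : p = l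
    · exact Or.inl hpl
    · exact Or.inr ⟨hp.1, hp.2.1, adm_cyc K l hl _ _ hζ p hp.2.1 hpl hp.2.2⟩
  have h4 := (Finset.card_le_card h3).trans (Finset.card_insert_le _ _)
  have h5 : (((Finset.range (X + 1)).filter
      (fun p => p.Prime ∧ AdmK (CyclotomicField l K) p)).card : ℝ) ≤
      (((Finset.range (X + 1)).filter (fun p => p.Prime ∧ AdmL K l p)).card : ℝ) + 1 := by
    exact_mod_cast h4
  linarith

end Pool.Agent.K9h5.C
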