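import Mathlib
import Pool.Agent.K9h5.Q.MainQ
import Pool.Agent.K9h5.C.Loc
import Pool.Agent.K9h5.C.Prm

/-!
# Cyclic covers in families
-/

set_option autoImplicit false
set_option linter.all false

namespace Pool.Agent.K9h5.C

open Polynomial Pool.Agent.H901R3.MS WeierstrassCurve Finset Pool.Agent.K9h5 Pool.Agent.K9h5.T
  Pool.Agent.K9h5.U Pool.Agent.K9h5.N Pool.Agent.K9h5.Q Height NumberField

/-- **The local condition.** -/
theorem lift_C (K : Type) [Field K] [NumberField K] [DecidableEq K]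
    {r s : ℕ} (l : ℕ) (hl : 1 ≤ l) (a b : Fin r → ℤ) (F : MvPolynomial (Fin (r + s) × Fin 3) ℤ)
    (j : Fin r) (d : Fin r → ℕ)
    (hF : ∀ (i : Fin r), F.IsWeightedHomogeneous (wtj (Fin.castAdd s i)) (d i))
    (hld : ∀ i, l ∣ d i)
    (p : ℕ) [Fact p.Prime] (hA : AdmK K p) (hD : ∀ i, Disc (a i : ZMod p) (b i : ZMod p))
    (t : Fin s → K) (htA : ∀ i, t i ∈ (vK K p hA).A)
    (P : ∀ i, Pt (a i : K) (b i : K)) (w : K)
    (hw : w ^ l = evF F (UU t (fun i => rep (P i)))) :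
    ∃ z : ZMod p, z ^ l = Gv (specF F (Fin.castAdd s j) (UU (fun i => (vK K p hA).r (t i))
      (fun i => rep (rdK K p (a i) (b i) (P i))))) (rdK K p (a j) (b j) (P j)) := by
  classical
  choose u hu0 huA using fun i => (rdK_spec K p hA (a i) (b i) (hD i)).2.2 (P i)
  choose e he using hld
  have h1 : evF F (UU t (fun i k => u i * rep (P i) k)) = ((∏ i, u i ^ e i) * w) ^ l := by
    rw [evF_scaleU F d hF u t (fun i => rep (P i)), ← hw, mul_pow]
    congr 1
    rw [← prod_pow]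
    refine prod_congr rfl fun i _ => ?_
    rw [he i, ← pow_mul, mul_comm]
  have hUA : ∀ i k, UU t (fun i k => u i * rep (P i) k) i k ∈ (vK K p hA).A ∧
      (vK K p hA).r (UU t (fun i k => u i * rep (P i) k) i k) =
        UU (fun i => (vK K p hA).r (t i)) (fun i => rep (rdK K p (a i) (b i) (P i))) i k := by
    intro i
    refine Fin.addCases (fun i => ?_) (fun i => ?_) i
    · intro k
      rw [UU_cast, UU_cast]
      exact huA i k
    · intro k
      rw [UU_nat, UU_nat]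
      have h0 : (0 : K) ∈ (vK K p hA).A ∧ (vK K p hA).r (0 : K) = 0 := by
        refine ⟨(vK K p hA).A.zero_mem, ?_⟩
        have := (vK K p hA).r_int 0
        simpa using this
      fin_cases k
      · exact ⟨htA i, rfl⟩
      · exact h0
      · exact h0
  obtain ⟨h2, h3⟩ := evF_place (vK K p hA) F _ (fun i k => (hUA i k).1)
  rw [h1] at h2 h3
  have h5 := (vK K p hA).mem_of_pow_mem hl h2
  refine ⟨(vK K p hA).r ((∏ i, u i ^ e i) * w), ?_⟩
  rw [← (vK K p hA).r_pow h5, h3]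
  unfold Gv
  rw [← MvPolynomial.eval₂_id, specF_eval]
  congr 1
  funext i k
  rw [(hUA i k).2]
  split_ifs with hi
  · rw [hi, UU_cast]
  · rfl

/-- **The local data of a family.** -/
theorem cyc_data {r s : ℕ} (l : ℕ) (hl : l.Prime) (a b : Fin r → ℤ)
    (hD : ∀ i, Disc (a i : ℚ) (b i : ℚ))
    (F : MvPolynomial (Fin (r + s) × Fin 3) ℤ) (j : Fin r) (d : Fin r → ℕ)
    (hF : ∀ (i : Fin r), F.IsWeightedHomogeneous (wtj (Fin.castAdd s i)) (d i))
    (hld : ∀ i, l ∣ d i)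
    (t₀ : Fin s → ℂ) (V : Fin r → Fin 3 → ℂ) (W : Fin 3 → PowerSeries ℂ) (m : ℕ)
    (haff : ∀ i, i ≠ j → V i 2 = 1 ∧ V i 1 ^ 2 = V i 0 ^ 3 + a i * V i 0 + b i)
    (hW0 : W ≠ 0) (hWE : W 1 ^ 2 * W 2 = W 0 ^ 3 + (a j : PowerSeries ℂ) * W 0 * W 2 ^ 2 +
      (b j : PowerSeries ℂ) * W 2 ^ 3)
    (hord : (evF F (UU (fun i => PowerSeries.C (t₀ i))
      (fun i k => if i = j then W k else PowerSeries.C (V i k)))).order = m)
    (hm : ¬ l ∣ m) :
    ∃ bb : MvPolynomial (Fin s) ℤ, MvPolynomial.aeval t₀ bb ≠ 0 ∧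
      ∃ (bp : MvPolynomial (Fin (r + s) × Fin 3) ℤ) (C₁ : ℝ) (p₁ : ℕ), 0 ≤ C₁ ∧
        (∀ (p : ℕ) [Fact p.Prime], p₁ ≤ p → (∀ i, Disc (a i : ZMod p) (b i : ZMod p)) ∧ p ≠ 2) ∧
        ∀ (p : ℕ) [Fact p.Prime], p₁ ≤ p → l ∣ p - 1 → ∀ t : Fin s → ZMod p,
          MvPolynomial.aeval t bb ≠ 0 →
          (∀ S : ∀ i, Finset (Pt (a i : ZMod p) (b i : ZMod p)),
            (open Classical in (((Fintype.piFinset S).filter
              (fun P => evF bp (UU t (fun i => rep (P i))) = 0)).card : ℝ)) ≤ C₁ * bdT a b p S) ∧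
          (∀ P : ∀ i, Pt (a i : ZMod p) (b i : ZMod p),
            GoodZ a b j p (fun P => evF bp (UU t (fun i => rep (P i))) = 0) P →
            ∃ Bd : Finset (Pt (a j : ZMod p) (b j : ZMod p)), 3 / 2 * (Bd.card : ℝ) ≤ C₁ ∧
              ∀ h h', h ∉ Bd → h' ∉ Bd → h + h' ∉ Bd → h - h' ∉ Bd →
              |∑ u : Pt (a j : ZMod p) (b j : ZMod p),
                gw l (specF F (Fin.castAdd s j) (UU t (fun i => rep (P i)))) u *
                gw l (specF F (Fin.castAdd s j) (UU t (fun i => rep (P i)))) (u + h) *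
                gw l (specF F (Fin.castAdd s j) (UU t (fun i => rep (P i)))) (u + h') *
                gw l (specF F (Fin.castAdd s j) (UU t (fun i => rep (P i))))
                  (u + (h + h'))| ≤ C₁ * √p) := by
  classical
  have hord' : (evF F (fun i k => if i = Fin.castAdd s j then W k else
      PowerSeries.C (UU t₀ V i k))).order = m := by
    have e1 : (fun i k => if i = Fin.castAdd s j then W k else PowerSeries.C (UU t₀ V i k)) =
        UU (fun i => PowerSeries.C (t₀ i))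
          (fun i k => if i = j then W k else PowerSeries.C (V i k)) := by
      rw [← UU_ite]
      funext i k
      split_ifs
      · rfl
      · exact congrFun (congrFun (UU_map (PowerSeries.C (R := ℂ)) t₀ V) i) k
    rw [e1]
    exact hord
  obtain ⟨bp, V₀, Cl, p₀, hCl, hbp0, haff₀, hVV, hloc⟩ := local_C l hl (a j) (b j) (hD j) F
    (Fin.castAdd s j) (hF j) (hld j) (UU t₀ V) W m hW0 hWE hord' hm
  obtain ⟨P₀, hP₀⟩ : ∃ P₀ : Fin r → Fin 3 → ℂ, P₀ = fun i => V₀ (Fin.castAdd s i) := ⟨_, rfl⟩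
  have hV₀ : V₀ = UU t₀ P₀ := by
    funext i
    refine Fin.addCases (fun i => ?_) (fun i => ?_) i
    · rw [UU_cast, hP₀]
    · rw [hVV _ (nat_ne_cast i j), UU_nat, UU_nat]
  have haffP : ∀ i, P₀ i 2 = 1 ∧ P₀ i 1 ^ 2 = P₀ i 0 ^ 3 + a i * P₀ i 0 + b i := by
    intro i
    by_cases hi : i = j
    · subst hi
      rw [hP₀]
      exact haff₀
    · have h1 : P₀ i = V i := by
        rw [hP₀]
        simp only
        rw [hVV _ (fun h => hi (Fin.castAdd_injective r s h)), UU_cast]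
      rw [h1]
      exact haff i hi
  rw [hV₀] at hbp0
  obtain ⟨bb, Cs, ps, hbb0, hsz⟩ := sz_fam a b bp t₀ P₀ haffP hbp0
  choose q hq using fun i => disc_mod (hD i)
  refine ⟨bb, hbb0, bp, ?_⟩
  obtain ⟨C₁, hC₁⟩ : ∃ C₁ : ℝ, C₁ = max (Cs : ℝ) Cl := ⟨_, rfl⟩
  have hC₁s : (Cs : ℝ) ≤ C₁ := by rw [hC₁]; exact le_max_left _ _
  have hC₁l : Cl ≤ C₁ := by rw [hC₁]; exact le_max_right _ _
  have hC₁0 : 0 ≤ C₁ := hCl.trans hC₁l
  obtain ⟨p₁, hp₁⟩ : ∃ p₁ : ℕ, p₁ = max (max p₀ ps) (∑ i, q i) := ⟨_, rfl⟩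
  have hp₁a : ∀ p, p₁ ≤ p → p₀ ≤ p := fun p h =>
    ((le_max_left _ _).trans (le_max_left _ _)).trans (hp₁ ▸ h)
  have hp₁b : ∀ p, p₁ ≤ p → ps ≤ p := fun p h =>
    ((le_max_right _ _).trans (le_max_left _ _)).trans (hp₁ ▸ h)
  have hp₁c : ∀ p, p₁ ≤ p → ∀ i, q i ≤ p := fun p h i =>
    ((single_le_sum (f := q) (fun _ _ => Nat.zero_le _) (mem_univ i)).trans
      (le_max_right _ _)).trans (hp₁ ▸ h)
  refine ⟨C₁, p₁, hC₁0, fun p _ hp => ⟨fun i => hq i p (hp₁c p hp i), (hloc p (hp₁a p hp)).2.1⟩, ?_⟩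
  intro p _ hp hlp t ht
  constructor
  · intro S
    have h1 := hsz p (hp₁b p hp) t ht S
    have h2 := (Nat.cast_le (α := ℝ)).2 h1
    push_cast at h2
    have h3 := h2.trans (mul_le_mul_of_nonneg_right hC₁s (Nat.cast_nonneg (bdT a b p S)))
    refine le_trans (le_of_eq ?_) h3
    congr!
  · intro P hP
    obtain ⟨c, hc⟩ := hP
    obtain ⟨Bd, hB1, hB2⟩ := (hloc p (hp₁a p hp)).2.2 hlp (UU t (fun i => rep (P i)))
      ⟨c, by
        rw [UU_update]
        have e1 : Function.update (fun i => rep (P i)) j (rep c) =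
            fun i => rep (Function.update P j c i) := by
          funext i
          by_cases hi : i = j
          · subst hi
            rw [Function.update_self, Function.update_self]
          · rw [Function.update_of_ne hi, Function.update_of_ne hi]
        rw [e1]
        exact hc⟩
    refine ⟨Bd, hB1.trans hC₁l, ?_⟩
    intro h h' e1 e2 e3 e4
    exact (hB2 h h' e1 e2 e3 e4).trans
      (mul_le_mul_of_nonneg_right hC₁l (Real.sqrt_nonneg _))

theorem gw_half {F : Type} [Field F] {a b : F} {l : ℕ} (hl : 2 ≤ l) (Φ : MvPolynomial (Fin 3) F)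
    (u : Pt a b) (h : ∃ t : F, t ^ l = Gv Φ u) : 1 / 2 ≤ gw l Φ u := by
  unfold gw
  rw [if_pos h]
  have h1 : (2 : ℝ) ≤ l := by exact_mod_cast hl
  have h2 : (1 : ℝ) / l ≤ 1 / 2 := one_div_le_one_div_of_le (by norm_num) h1
  linarith

/-- the tuples in the subgroups over which the form is an `l`-th power -/
def ExcC (K : Type) [Field K] [NumberField K] [DecidableEq K] {r s : ℕ} (l : ℕ) (a b : Fin r → ℤ)
    (Γ : ∀ i, AddSubgroup (Pt (a i : K) (b i : K)))
    (F : MvPolynomial (Fin (r + s) × Fin 3) ℤ) (t : Fin s → K) (B : ℝ) : Set (∀ i, Γ i) :=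
  {P | (∀ i, hK (P i : Pt (a i : K) (b i : K)) ≤ B) ∧
    ∃ w : K, w ^ l = evF F (UU t (fun i => rep (P i : Pt (a i : K) (b i : K))))}

theorem badP_cardL (K : Type) [Field K] [NumberField K] {s : ℕ} (l : ℕ)
    (bb : MvPolynomial (Fin s) ℤ) :
    ∃ Cb : ℝ, 0 ≤ Cb ∧ ∀ θ : Par K bb, ∀ S : Finset ℕ,
      (∀ p ∈ S, p.Prime ∧ AdmL K l p ∧ badP K bb θ p) → (S.card : ℝ) ≤ Cb * θ.1.2 := by
  obtain ⟨Cb, hCb, h⟩ := badP_card K bb
  exact ⟨Cb, hCb, fun θ S hS => h θ S fun p hp => ⟨(hS p hp).1, (hS p hp).2.1.1, (hS p hp).2.2⟩⟩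

section

variable (K : Type) [Field K] [NumberField K] [DecidableEq K] {a b : ℤ}
  (Γ : AddSubgroup (Pt (a : K) (b : K)))

theorem kill_sub (l : ℕ) : Kill (fun P : Γ => hK (P : Pt (a : K) (b : K))) (AdmL K l)
    (fun p _ => (rdK K p a b).comp Γ.subtype) := by
  intro P hP0 S hS
  refine killL K l a b P (fun h => hP0 (Subtype.ext h)) S ?_
  intro p hp
  exact hS p hp

theorem fg_sub (hD : Disc (a : K) (b : K)) : AddGroup.FG Γ := by
  haveI h1 : AddGroup.FG (Pt (a : K) (b : K)) := t_M1K K _ _ hD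
  haveI h2 : Module.Finite ℤ (Pt (a : K) (b : K)) := Module.Finite.iff_addGroup_fg.2 h1
  haveI h3 : IsNoetherian ℤ (Pt (a : K) (b : K)) := inferInstance
  have h4 : Module.Finite ℤ (AddSubgroup.toIntSubmodule Γ) := inferInstance
  exact Module.Finite.iff_addGroup_fg.1 h4

theorem north_sub (B : ℝ) : {P : Γ | hK (P : Pt (a : K) (b : K)) ≤ B}.Finite :=
  (northK (a := (a : K)) (b := (b : K)) B).preimage Subtype.val_injective.injOn

theorem canon_sub (hD : Disc (a : K) (b : K)) : ∃ (n : ℕ)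
    (ψ : Γ →+ EuclideanSpace ℝ (Fin n)) (C : ℝ),
      ∀ P : Γ, |‖ψ P‖ ^ 2 - hK (P : Pt (a : K) (b : K))| ≤ C := by
  obtain ⟨n, ψ, C, h⟩ := canonK hD
  exact ⟨n, ψ.comp Γ.subtype, C, fun P => h P⟩

end

/-- **The main theorem for families of cyclic covers.** -/
theorem main_cyc {r s : ℕ} (l : ℕ) (hl : l.Prime) (a b : Fin r → ℤ)
    (hD : ∀ i, Disc (a i : ℚ) (b i : ℚ))
    (F : MvPolynomial (Fin (r + s) × Fin 3) ℤ) (j : Fin r) (d : Fin r → ℕ)
    (hF : ∀ (i : Fin r), F.IsWeightedHomogeneous (wtj (Fin.castAdd s i)) (d i))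
    (hld : ∀ i, l ∣ d i)
    (t₀ : Fin s → ℂ) (V : Fin r → Fin 3 → ℂ) (W : Fin 3 → PowerSeries ℂ) (m : ℕ)
    (haff : ∀ i, i ≠ j → V i 2 = 1 ∧ V i 1 ^ 2 = V i 0 ^ 3 + a i * V i 0 + b i)
    (hW0 : W ≠ 0) (hWE : W 1 ^ 2 * W 2 = W 0 ^ 3 + (a j : PowerSeries ℂ) * W 0 * W 2 ^ 2 +
      (b j : PowerSeries ℂ) * W 2 ^ 3)
    (hord : (evF F (UU (fun i => PowerSeries.C (t₀ i))
      (fun i k => if i = j then W k else PowerSeries.C (V i k)))).order = m)
    (hm : ¬ l ∣ m) :
    ∃ bb : MvPolynomial (Fin s) ℤ, MvPolynomial.aeval t₀ bb ≠ 0 ∧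
      ∀ (K : Type) [Field K] [NumberField K] [DecidableEq K]
        (Γ : ∀ i, AddSubgroup (Pt (a i : K) (b i : K))),
        (∀ mm : ℕ, (∀ i, mm ≤ Module.finrank ℤ (Γ i)) →
          ∃ C : ℝ, 0 < C ∧ ∀ B : ℝ, 1 ≤ B →
            (ABg (fun i (P : Γ i) => hK (P : Pt (a i : K) (b i : K))) B).Finite ∧
            ∀ t : Fin s → K, (∀ i, logHeight₁ (t i) ≤ B ^ (3 / 10 * (mm : ℝ))) ∧
              MvPolynomial.aeval t bb ≠ 0 → ((ExcC K l a b Γ F t B).ncard : ℝ) ≤
              C * (B ^ ((2 - 98 / 1000 * (mm : ℝ)) / 2) *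
                ((ABg (fun i (P : Γ i) => hK (P : Pt (a i : K) (b i : K))) B).ncard : ℝ))) ∧
        ((∀ i, 1 ≤ Module.finrank ℤ (Γ i)) → 3 ≤ Module.finrank ℤ (Γ j) →
          ∃ C : ℝ, 0 < C ∧ ∀ B : ℝ, 1 ≤ B →
            (ABg (fun i (P : Γ i) => hK (P : Pt (a i : K) (b i : K))) B).Finite ∧
            ∀ t : Fin s → K, (∀ i, logHeight₁ (t i) ≤ B ^ (33 / 200 : ℝ)) ∧
              MvPolynomial.aeval t bb ≠ 0 → ((ExcC K l a b Γ F t B).ncard : ℝ) ≤
              C * (B ^ (-(1 / 300) : ℝ) *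
                ((ABg (fun i (P : Γ i) => hK (P : Pt (a i : K) (b i : K))) B).ncard : ℝ))) := by
  classical
  obtain ⟨bb, hbb0, bp, C₁, p₁, hC₁0, hdisc, hloc⟩ := cyc_data l hl a b hD F j d hF hld t₀ V W m
    haff hW0 hWE hord hm
  refine ⟨bb, hbb0, ?_⟩
  intro K _ _ _ Γ
  have hDK := discK (K := K) a b hD
  obtain ⟨Cb, hCb, hbad⟩ := badP_cardL K l bb
  have hfin : ∀ B : ℝ, (ABg (fun i (P : Γ i) => hK (P : Pt (a i : K) (b i : K))) B).Finite :=
    fun B => ABg_finite (fun i (P : Γ i) => hK (P : Pt (a i : K) (b i : K)))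
      (fun i => north_sub K (Γ i)) B
  constructor
  · intro mm hrk
    obtain ⟨C, hC, hm⟩ := points_fam a b (fun i => Γ i)
      (fun i (P : Γ i) => hK (P : Pt (a i : K) (b i : K))) (AdmL K l)
      (fun p _ i => (rdK K p (a i) (b i)).comp (Γ i).subtype) (fun i => kill_sub K (Γ i) l)
      (supL K l hl)
      (fun i => fg_sub K (Γ i) (hDK i)) (fun i P => hK_nonneg _) (fun i => north_sub K (Γ i))
      (fun i => canon_sub K (Γ i) (hDK i)) (fun i => hK_zero) j (Par K bb) (fun θ => θ.1.2)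
      (badP K bb) Cb hbad hCb
      (fun θ P => ∃ w : K, w ^ l = evF F (UU θ.1.1
        (fun i => rep (P i : Pt (a i : K) (b i : K)))))
      (fun θ p _ P u => gw l (specF F (Fin.castAdd s j)
        (UU (rt K p θ.1.1) (fun i => rep (P i)))) u)
      (fun θ p _ P u => gw_abs_le hl.one_le _ u)
      (fun θ p _ P P' h => by
        have h1 : specF F (Fin.castAdd s j) (UU (rt K p θ.1.1) (fun i => rep (P i))) =
            specF F (Fin.castAdd s j) (UU (rt K p θ.1.1) (fun i => rep (P' i))) := by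
          apply specF_congr
          exact UU_off _ _ _ j (fun i hi => by rw [h i hi])
        funext u
        simp only [h1])
      (fun θ p _ P => evF bp (UU (rt K p θ.1.1) (fun i => rep (P i))) = 0)
      C₁ p₁ hC₁0 hdisc
      (fun θ p _ hp hA hb => by
        obtain ⟨hg1, hg2⟩ := hloc p hp hA.2 (rt K p θ.1.1) (good_spec K bb θ p hA.1 hb).2
        refine ⟨?_, ?_⟩
        · intro S
          refine le_trans (le_of_eq ?_) (hg1 S)
          congr!
        · intro P hP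
          exact hg2 P hP)
      (1 / 2) (by norm_num)
      (fun θ p _ hp hA hb P hP => by
        obtain ⟨w, hw⟩ := hP
        have h1 := lift_C K l hl.one_le a b F j d hF hld p hA.1 (hdisc p hp).1 θ.1.1
          (good_spec K bb θ p hA.1 hb).1 (fun i => (P i : Pt (a i : K) (b i : K))) w hw
        rw [← rt_eq K p hA.1] at h1
        exact gw_half hl.two_le _ _ h1) mm hrk
    refine ⟨C + 1, by linarith, ?_⟩
    intro B hB
    refine ⟨hfin B, ?_⟩
    intro t htQ
    have h1 := hm ⟨(t, B ^ (3 / 10 * (mm : ℝ))), Real.one_le_rpow hB (by positivity), htQ.1,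
      htQ.2⟩ B hB le_rfl
    refine h1.trans ?_
    refine mul_le_mul_of_nonneg_right (by linarith) (by positivity)
  · intro hrk hrj
    obtain ⟨C, hC, hm⟩ := points_genF a b (fun i => Γ i)
      (fun i (P : Γ i) => hK (P : Pt (a i : K) (b i : K))) (AdmL K l)
      (fun p _ i => (rdK K p (a i) (b i)).comp (Γ i).subtype) (fun i => kill_sub K (Γ i) l)
      (supL K l hl)
      (fun i => fg_sub K (Γ i) (hDK i)) (fun i P => hK_nonneg _) (fun i => north_sub K (Γ i))
      (fun i => canon_sub K (Γ i) (hDK i)) (fun i => hK_zero) j (Par K bb) (fun θ => θ.1.2)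
      (badP K bb) Cb hbad hCb
      (fun θ P => ∃ w : K, w ^ l = evF F (UU θ.1.1
        (fun i => rep (P i : Pt (a i : K) (b i : K)))))
      (fun θ p _ P u => gw l (specF F (Fin.castAdd s j)
        (UU (rt K p θ.1.1) (fun i => rep (P i)))) u)
      (fun θ p _ P u => gw_abs_le hl.one_le _ u)
      (fun θ p _ P P' h => by
        have h1 : specF F (Fin.castAdd s j) (UU (rt K p θ.1.1) (fun i => rep (P i))) =
            specF F (Fin.castAdd s j) (UU (rt K p θ.1.1) (fun i => rep (P' i))) := by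
          apply specF_congr
          exact UU_off _ _ _ j (fun i hi => by rw [h i hi])
        funext u
        simp only [h1])
      (fun θ p _ P => evF bp (UU (rt K p θ.1.1) (fun i => rep (P i))) = 0)
      C₁ p₁ hC₁0 hdisc
      (fun θ p _ hp hA hb => by
        obtain ⟨hg1, hg2⟩ := hloc p hp hA.2 (rt K p θ.1.1) (good_spec K bb θ p hA.1 hb).2
        refine ⟨?_, ?_⟩
        · intro S
          refine le_trans (le_of_eq ?_) (hg1 S)
          congr!
        · intro P hP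
          exact hg2 P hP)
      (1 / 2) (by norm_num)
      (fun θ p _ hp hA hb P hP => by
        obtain ⟨w, hw⟩ := hP
        have h1 := lift_C K l hl.one_le a b F j d hF hld p hA.1 (hdisc p hp).1 θ.1.1
          (good_spec K bb θ p hA.1 hb).1 (fun i => (P i : Pt (a i : K) (b i : K))) w hw
        rw [← rt_eq K p hA.1] at h1
        exact gw_half hl.two_le _ _ h1) hrk hrj
    refine ⟨C + 1, by linarith, ?_⟩
    intro B hB
    refine ⟨hfin B, ?_⟩
    intro t htQ
    have h1 := hm ⟨(t, B ^ (33 / 200 : ℝ)), Real.one_le_rpow hB (by norm_num), htQ.1, htQ.2⟩ B hB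
      le_rfl
    refine h1.trans ?_
    refine mul_le_mul_of_nonneg_right (by linarith) (by positivity)

end Pool.Agent.K9h5.C
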