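import Mathlib
import Pool.Agent.K9h5.C.Main
import Pool.Agent.K9h5.W.UnivP

/-!
# The universal family of the hypersurfaces `G_0 w ^ n + G_1 v ^ n = 0`
-/

set_option autoImplicit false
set_option linter.all false

namespace Pool.Agent.K9h5.C

open Pool.Agent.H901R3.MS WeierstrassCurve Finset Pool.Agent.K9h5 Pool.Agent.K9h5.T
  Pool.Agent.K9h5.U Pool.Agent.K9h5.Q Pool.Agent.K9h5.N Pool.Agent.K9h5.W Height

/-- the radicand -/
noncomputable def rad {r : ℕ} {S : Type} [CommRing S] (n : ℕ)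
    (G : Fin (1 + 1) → MvPolynomial (Fin r × Fin 3) S) : MvPolynomial (Fin r × Fin 3) S :=
  -(G 1 * G 0 ^ (n - 1))

/-- the universal radicand -/
noncomputable def FuC {r : ℕ} (n : ℕ) (c d : Fin r → ℕ) :
    MvPolynomial (Fin (Fintype.card (IuP 1 (fun i => n * c i) d)) ⊕ (Fin r × Fin 3)) ℤ :=
  -(GuP 1 (fun i => n * c i) d 1 * GuP 1 (fun i => n * c i) d 0 ^ (n - 1))

theorem FuC_homog {r : ℕ} {n : ℕ} (hn : 1 ≤ n) (c d : Fin r → ℕ) (i : Fin r) :
    (FuC n c d).IsWeightedHomogeneous (Sum.elim (fun _ => 0)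
      (fun v : Fin r × Fin 3 => if v.1 = i then 1 else 0)) (n * (c i + d i)) := by
  have h1 := (GuP_homog 1 (fun i => n * c i) d 1 i).mul
    ((GuP_homog 1 (fun i => n * c i) d 0 i).pow (n - 1))
  rw [← MvPolynomial.mem_weightedHomogeneousSubmodule] at h1 ⊢
  have h2 : n * (c i + d i) = (d i + ((1 : Fin (1 + 1)) : ℕ) * (n * c i)) +
      (n - 1) • (d i + ((0 : Fin (1 + 1)) : ℕ) * (n * c i)) := by
    obtain ⟨k, rfl⟩ : ∃ k, n = k + 1 := ⟨n - 1, by omega⟩
    rw [smul_eq_mul, Fin.val_zero, Fin.val_one, Nat.add_sub_cancel]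
    ring
  rw [h2]
  exact Submodule.neg_mem _ h1

theorem evF_FuC {r n : ℕ} (c d : Fin r → ℕ) {S T : Type} [CommRing S] [CommRing T] (κ : S →+* T)
    (G : Fin (1 + 1) → MvPolynomial (Fin r × Fin 3) S) (hG : MHP G (fun i => n * c i) d)
    (V : Fin r → Fin 3 → T) :
    evF (MvPolynomial.rename (rho r _) (FuC n c d))
      (UU (fun i => κ (coP G (ixP 1 (fun i => n * c i) d i))) V) =
      MvPolynomial.eval₂ κ (fun v => V v.1 v.2) (rad n G) := by
  rw [evF_rename]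
  unfold FuC rad
  rw [map_neg, map_mul, map_pow, GuP_eval (fun i => n * c i) d κ G hG,
    GuP_eval (fun i => n * c i) d κ G hG, MvPolynomial.eval₂_neg, MvPolynomial.eval₂_mul,
    MvPolynomial.eval₂_pow]

/-- the tuples in the subgroups over which the radicand is an `l`-th power -/
def ExcH (K : Type) [Field K] [NumberField K] [DecidableEq K] {r : ℕ} (n l : ℕ) (a b : Fin r → ℤ)
    (Γ : ∀ i, AddSubgroup (Pt (a i : K) (b i : K)))
    (G : Fin (1 + 1) → MvPolynomial (Fin r × Fin 3) K) (B : ℝ) : Set (∀ i, Γ i) :=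
  {P | (∀ i, hK (P i : Pt (a i : K) (b i : K)) ≤ B) ∧
    ∃ w : K, w ^ l = MvPolynomial.eval (fun v => rep (P v.1 : Pt (a v.1 : K) (b v.1 : K)) v.2)
      (rad n G)}

/-- ramification in the direction of the `j`-th factor -/
def RamC {r : ℕ} (n l : ℕ) (a b : Fin r → ℤ) (G : Fin (1 + 1) → MvPolynomial (Fin r × Fin 3) ℂ)
    (j : Fin r) : Prop :=
  ∃ (V : Fin r → Fin 3 → ℂ) (W : Fin 3 → PowerSeries ℂ) (m : ℕ),
    (∀ i, i ≠ j → V i 2 = 1 ∧ V i 1 ^ 2 = V i 0 ^ 3 + a i * V i 0 + b i) ∧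
    W ≠ 0 ∧ W 1 ^ 2 * W 2 = W 0 ^ 3 + (a j : PowerSeries ℂ) * W 0 * W 2 ^ 2 +
      (b j : PowerSeries ℂ) * W 2 ^ 3 ∧
    (MvPolynomial.eval₂ PowerSeries.C (fun v : Fin r × Fin 3 =>
      if v.1 = j then W v.2 else PowerSeries.C (V v.1 v.2)) (rad n G)).order = m ∧ ¬ l ∣ m

/-- the property of a polynomial in the coefficients -/
def SavC {r : ℕ} (n l : ℕ) (a b : Fin r → ℤ) (c d : Fin r → ℕ) (j : Fin r)
    (φ : MvPolynomial (IxP r 1) ℤ) : Prop :=
  ∀ (K : Type) [Field K] [NumberField K] [DecidableEq K]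
        (Γ : ∀ i, AddSubgroup (Pt (a i : K) (b i : K))),
        (∀ mm : ℕ, (∀ i, mm ≤ Module.finrank ℤ (Γ i)) →
          ∃ C : ℝ, 0 < C ∧ ∀ B : ℝ, 1 ≤ B →
            (ABg (fun i (P : Γ i) => hK (P : Pt (a i : K) (b i : K))) B).Finite ∧
            ∀ G : Fin (1 + 1) → MvPolynomial (Fin r × Fin 3) K, MHP G (fun i => n * c i) d →
              (∀ x, logHeight₁ (coP G x) ≤ B ^ (3 / 10 * (mm : ℝ))) →
              MvPolynomial.aeval (coP G) φ ≠ 0 → ((ExcH K n l a b Γ G B).ncard : ℝ) ≤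
              C * (B ^ ((2 - 98 / 1000 * (mm : ℝ)) / 2) *
                ((ABg (fun i (P : Γ i) => hK (P : Pt (a i : K) (b i : K))) B).ncard : ℝ))) ∧
        ((∀ i, 1 ≤ Module.finrank ℤ (Γ i)) → 3 ≤ Module.finrank ℤ (Γ j) →
          ∃ C : ℝ, 0 < C ∧ ∀ B : ℝ, 1 ≤ B →
            (ABg (fun i (P : Γ i) => hK (P : Pt (a i : K) (b i : K))) B).Finite ∧
            ∀ G : Fin (1 + 1) → MvPolynomial (Fin r × Fin 3) K, MHP G (fun i => n * c i) d →
              (∀ x, logHeight₁ (coP G x) ≤ B ^ (33 / 200 : ℝ)) →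
              MvPolynomial.aeval (coP G) φ ≠ 0 → ((ExcH K n l a b Γ G B).ncard : ℝ) ≤
              C * (B ^ (-(1 / 300) : ℝ) *
                ((ABg (fun i (P : Γ i) => hK (P : Pt (a i : K) (b i : K))) B).ncard : ℝ)))

/-- the closed set for one complex hypersurface -/
theorem univC_one {r n l : ℕ} (hn : 1 ≤ n) (hl : l.Prime) (hln : l ∣ n) (a b : Fin r → ℤ)
    (hD : ∀ i, Disc (a i : ℚ) (b i : ℚ))
    (c d : Fin r → ℕ) (j : Fin r) (G : Fin (1 + 1) → MvPolynomial (Fin r × Fin 3) ℂ)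
    (hG : MHP G (fun i => n * c i) d) (hR : RamC n l a b G j) :
    ∃ bb : MvPolynomial (Fin (Fintype.card (IuP 1 (fun i => n * c i) d))) ℤ,
      MvPolynomial.aeval (fun i => coP G (ixP 1 (fun i => n * c i) d i)) bb ≠ 0 ∧
      SavC n l a b c d j (MvPolynomial.rename (ixP 1 (fun i => n * c i) d) bb) := by
  classical
  obtain ⟨V, W, m, haff, hW0, hWE, hord, hm⟩ := hR
  obtain ⟨bb, hbb, hmain⟩ := main_cyc (s := Fintype.card (IuP 1 (fun i => n * c i) d)) l hl a b hD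
    (MvPolynomial.rename (rho r _) (FuC n c d)) j (fun i => n * (c i + d i))
    (fun i => rename_homog i (FuC n c d) (FuC_homog hn c d i))
    (fun i => Dvd.dvd.mul_right hln _)
    (fun i => coP G (ixP 1 (fun i => n * c i) d i)) V W m haff
    hW0 hWE (by
      rw [← hord]
      congr 1
      rw [evF_FuC c d PowerSeries.C G hG]) hm
  refine ⟨bb, hbb, ?_⟩
  intro K _ _ _ Γ
  obtain ⟨h1, h2⟩ := hmain K Γ
  have hExc : ∀ (G : Fin (1 + 1) → MvPolynomial (Fin r × Fin 3) K) (hG : MHP G (fun i => n * c i) d)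
      (B : ℝ), ExcH K n l a b Γ G B = ExcC K l a b Γ (MvPolynomial.rename (rho r _) (FuC n c d))
        (fun i => coP G (ixP 1 (fun i => n * c i) d i)) B := by
    intro G hG B
    ext P
    unfold ExcH ExcC
    rw [Set.mem_setOf_eq, Set.mem_setOf_eq]
    have h3 : evF (MvPolynomial.rename (rho r _) (FuC n c d))
          (UU (fun i => coP G (ixP 1 (fun i => n * c i) d i))
            (fun i => rep (P i : Pt (a i : K) (b i : K)))) =
        MvPolynomial.eval (fun v => rep (P v.1 : Pt (a v.1 : K) (b v.1 : K)) v.2) (rad n G) :=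
      evF_FuC c d (RingHom.id K) G hG (fun i => rep (P i : Pt (a i : K) (b i : K)))
    rw [h3]
  have haev : ∀ G : Fin (1 + 1) → MvPolynomial (Fin r × Fin 3) K,
      MvPolynomial.aeval (coP G) (MvPolynomial.rename (ixP 1 (fun i => n * c i) d) bb) =
        MvPolynomial.aeval (fun i => coP G (ixP 1 (fun i => n * c i) d i)) bb := by
    intro G
    rw [MvPolynomial.aeval_rename]
    rfl
  constructor
  · intro mm hmm
    obtain ⟨C, hC, h4⟩ := h1 mm hmm
    refine ⟨C, hC, fun B hB => ⟨(h4 B hB).1, fun G hG hh hφ => ?_⟩⟩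
    rw [hExc G hG B]
    exact (h4 B hB).2 _ ⟨fun i => hh _, by rw [← haev]; exact hφ⟩
  · intro hr1 hr3
    obtain ⟨C, hC, h4⟩ := h2 hr1 hr3
    refine ⟨C, hC, fun B hB => ⟨(h4 B hB).1, fun G hG hh hφ => ?_⟩⟩
    rw [hExc G hG B]
    exact (h4 B hB).2 _ ⟨fun i => hh _, by rw [← haev]; exact hφ⟩

/-- **The closed set.** -/
theorem univC_fam {r n l : ℕ} (hn : 1 ≤ n) (hl : l.Prime) (hln : l ∣ n) (a b : Fin r → ℤ)
    (hD : ∀ i, Disc (a i : ℚ) (b i : ℚ))
    (c d : Fin r → ℕ) (j : Fin r) : ∃ Z : Finset (MvPolynomial (IxP r 1) ℤ),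
      (∀ G : Fin (1 + 1) → MvPolynomial (Fin r × Fin 3) ℂ, MHP G (fun i => n * c i) d →
        RamC n l a b G j → ∃ φ ∈ Z, MvPolynomial.aeval (coP G) φ ≠ 0) ∧
      ∀ φ ∈ Z, SavC n l a b c d j φ := by
  classical
  set A : Set (MvPolynomial (Fin (Fintype.card (IuP 1 (fun i => n * c i) d))) ℤ) :=
    {bb | SavC n l a b c d j (MvPolynomial.rename (ixP 1 (fun i => n * c i) d) bb)} with hA
  have hfg : (Ideal.span A).FG := IsNoetherian.noetherian _
  obtain ⟨Z₀, hZA, hZ⟩ := (Submodule.fg_span_iff_fg_span_finset_subset A).1 hfg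
  refine ⟨Z₀.image (MvPolynomial.rename (ixP 1 (fun i => n * c i) d)), ?_, ?_⟩
  · intro G hG hR
    obtain ⟨bb, hbb, hS⟩ := univC_one hn hl hln a b hD c d j G hG hR
    by_contra hcon
    push Not at hcon
    have h1 : bb ∈ Ideal.span
        (Z₀ : Set (MvPolynomial (Fin (Fintype.card (IuP 1 (fun i => n * c i) d))) ℤ)) := by
      have h2 : bb ∈ Ideal.span A := Ideal.subset_span hS
      have h3 : Ideal.span A = Ideal.span (Z₀ : Set _) := hZ
      rw [← h3]
      exact h2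
    have h4 : Ideal.span
        (Z₀ : Set (MvPolynomial (Fin (Fintype.card (IuP 1 (fun i => n * c i) d))) ℤ)) ≤
        RingHom.ker (MvPolynomial.aeval (R := ℤ)
          (fun i => coP G (ixP 1 (fun i => n * c i) d i))) := by
      rw [Ideal.span_le]
      intro φ hφ
      rw [SetLike.mem_coe, RingHom.mem_ker]
      have h5 := hcon _ (mem_image_of_mem (MvPolynomial.rename (ixP 1 (fun i => n * c i) d)) hφ)
      rw [MvPolynomial.aeval_rename] at h5
      exact h5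
    exact hbb (h4 h1)
  · intro φ hφ
    obtain ⟨ψ, hψ, rfl⟩ := mem_image.1 hφ
    exact hZA hψ

end Pool.Agent.K9h5.C
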