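import Mathlib
import Pool.Agent.K9h5.C.Univ
import Pool.Agent.K9h5.W.ExU

/-!
# The closed set is proper
-/

set_option autoImplicit false
set_option linter.all false

namespace Pool.Agent.K9h5.C

open Finset Pool.Agent.K9h5 Pool.Agent.K9h5.T Pool.Agent.K9h5.W

/-- the example -/
noncomputable def Gy {r : ℕ} (n : ℕ) (j : Fin r) (β : ℂ) (c d : Fin r → ℕ) (k : Fin (1 + 1)) :
    MvPolynomial (Fin r × Fin 3) ℂ :=
  if (k : ℕ) = 0 then ∏ i, MvPolynomial.X (i, 2) ^ d i
  else (∏ i ∈ univ.erase j, MvPolynomial.X (i, 2) ^ (d i + n * c i)) *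
    ((MvPolynomial.X (j, 0) - MvPolynomial.C β * MvPolynomial.X (j, 2)) *
      MvPolynomial.X (j, 2) ^ (d j + n * c j - 1))

theorem Gy_MHP {r : ℕ} {n : ℕ} (hn : 1 ≤ n) (j : Fin r) (β : ℂ) (c d : Fin r → ℕ)
    (hcd : 1 ≤ c j + d j) : MHP (Gy n j β c d) (fun i => n * c i) d := by
  classical
  intro k i
  unfold Gy
  by_cases hk : (k : ℕ) = 0
  · rw [if_pos hk]
    have h1 : (∏ i' : Fin r, MvPolynomial.X (i', 2) ^ (d i') :
        MvPolynomial (Fin r × Fin 3) ℂ).IsWeightedHomogeneous (wt i)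
          (∑ i' : Fin r, d i' * (if i' = i then 1 else 0)) :=
      MvPolynomial.IsWeightedHomogeneous.prod _ _ _ (fun i' _ => homog_pow i i' _)
    have h3 : d i + (k : ℕ) * (n * c i) = ∑ i' : Fin r, d i' * (if i' = i then 1 else 0) := by
      rw [hk]
      simp
    rw [h3]
    exact h1
  · rw [if_neg hk]
    have hk1 : (k : ℕ) = 1 := by omega
    have h1 : (∏ i' ∈ univ.erase j, MvPolynomial.X (i', 2) ^ (d i' + n * c i') :
        MvPolynomial (Fin r × Fin 3) ℂ).IsWeightedHomogeneous (wt i)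
          (∑ i' ∈ univ.erase j, (d i' + n * c i') * (if i' = i then 1 else 0)) :=
      MvPolynomial.IsWeightedHomogeneous.prod _ _ _ (fun i' _ => homog_pow i i' _)
    have h2 := h1.mul ((homog_lin i j β).mul (homog_pow i j (d j + n * c j - 1)))
    have hpos : 1 ≤ d j + n * c j := by
      rcases Nat.eq_zero_or_pos (c j) with h | h
      · omega
      · have := Nat.le_mul_of_pos_right n h
        omega
    have h3 : d i + (k : ℕ) * (n * c i) = (∑ i' ∈ univ.erase j, (d i' + n * c i') *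
        (if i' = i then 1 else 0)) + ((if j = i then 1 else 0) +
          (d j + n * c j - 1) * (if j = i then 1 else 0)) := by
      have h4 : (if j = i then 1 else 0) + (d j + n * c j - 1) * (if j = i then 1 else 0) =
          (d j + n * c j) * (if j = i then 1 else 0) := by
        split_ifs
        · omega
        · rfl
      rw [h4, Finset.sum_erase_add univ
        (fun i' => (d i' + n * c i') * (if i' = i then 1 else 0)) (mem_univ j), hk1]
      simp
    rw [h3]
    exact h2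

theorem Gy_one {r : ℕ} (n : ℕ) (j : Fin r) (β : ℂ) (c d : Fin r → ℕ) (hd : d = 0) :
    Gy n j β c d 0 = 1 := by
  subst hd
  unfold Gy
  simp

theorem Gy_eval {r : ℕ} {n : ℕ} (j : Fin r) (β : ℂ) (c d : Fin r → ℕ) {T : Type}
    [CommRing T] (κ : ℂ →+* T) (U : Fin r × Fin 3 → T) (hU : ∀ i, U (i, 2) = 1) :
    MvPolynomial.eval₂ κ U (rad n (Gy n j β c d)) = -(U (j, 0) - κ β) := by
  classical
  have h0 : MvPolynomial.eval₂ κ U (Gy n j β c d 0) = 1 := by
    unfold Gy
    rw [if_pos (Fin.val_zero _), MvPolynomial.eval₂_prod, Finset.prod_eq_one]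
    intro i _
    simp [hU]
  have h1 : MvPolynomial.eval₂ κ U (Gy n j β c d 1) = U (j, 0) - κ β := by
    unfold Gy
    rw [if_neg (by rw [Fin.val_one]; norm_num), MvPolynomial.eval₂_mul, MvPolynomial.eval₂_prod,
      Finset.prod_eq_one, one_mul]
    · simp [hU]
    · intro i _
      simp [hU]
  unfold rad
  rw [MvPolynomial.eval₂_neg, MvPolynomial.eval₂_mul, MvPolynomial.eval₂_pow, h0, h1, one_pow,
    mul_one]

/-- **An example.** -/
theorem exists_RamC {r n : ℕ} (hn : 1 ≤ n) (a b : Fin r → ℤ) (c d : Fin r → ℕ) (j : Fin r)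
    (hcd : 1 ≤ c j + d j) : ∃ G : Fin (1 + 1) → MvPolynomial (Fin r × Fin 3) ℂ,
      MHP G (fun i => n * c i) d ∧ (d = 0 → G 0 = 1) ∧ ∀ l : ℕ, l.Prime → RamC n l a b G j := by
  classical
  obtain ⟨x₀, hx₀⟩ : ∃ x₀ : ℂ, x₀ ^ 3 + (a j : ℂ) * x₀ + (b j : ℂ) ≠ 0 := by
    by_contra hcon
    push Not at hcon
    have h0 := hcon 0
    have h1 := hcon 1
    have h2 := hcon (-1)
    have h3 := hcon 2
    have h4 : (6 : ℂ) = 0 := by linear_combination h3 - 2 * h1 + h0
    norm_num at h4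
  obtain ⟨Y, hY⟩ := arc_aff (a j : ℂ) (b j : ℂ) x₀ hx₀
  choose y hy using fun i => IsAlgClosed.exists_pow_nat_eq ((b i : ℂ)) (n := 2) (by norm_num)
  refine ⟨Gy n j x₀ c d, Gy_MHP hn j x₀ c d hcd, Gy_one n j x₀ c d, ?_⟩
  intro l hl
  refine ⟨fun i => ![0, y i, 1], ![PowerSeries.C x₀ + PowerSeries.X, Y, 1], 1, ?_, ?_, ?_, ?_,
    hl.one_lt.ne' ∘ Nat.dvd_one.1⟩
  · intro i _
    refine ⟨rfl, ?_⟩
    show y i ^ 2 = 0 ^ 3 + (a i : ℂ) * 0 + b i
    rw [hy]
    ring
  · intro h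
    have h1 := congrFun h 2
    exact one_ne_zero h1
  · show Y ^ 2 * 1 = (PowerSeries.C x₀ + PowerSeries.X) ^ 3 +
      (a j : PowerSeries ℂ) * (PowerSeries.C x₀ + PowerSeries.X) * 1 ^ 2 +
        (b j : PowerSeries ℂ) * 1 ^ 3
    rw [hY, map_intCast, map_intCast]
    ring
  · rw [Gy_eval]
    · have h1 : (if ((j, 0) : Fin r × Fin 3).1 = j then
          (![PowerSeries.C x₀ + PowerSeries.X, Y, 1] : Fin 3 → PowerSeries ℂ) (j, (0 : Fin 3)).2
          else PowerSeries.C ((fun i => ![0, y i, 1] : Fin r → Fin 3 → ℂ) (j, (0 : Fin 3)).1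
            (j, (0 : Fin 3)).2)) = PowerSeries.C x₀ + PowerSeries.X := by
        rw [if_pos rfl]
        rfl
      rw [h1, add_sub_cancel_left, PowerSeries.order_neg, PowerSeries.order_X]
      rfl
    · intro i
      show (if i = j then _ else _) = _
      split_ifs
      · rfl
      · simp

end Pool.Agent.K9h5.C
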